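import Pool.Agent.Helper548.HB.Defs
import Pool.Agent.Helper548.HB.CoreLit
import Pool.Agent.Helper548.HB.Lit
import Pool.Agent.Helper548.HB.PA
import Pool.Agent.Helper548.HB.RealZ
import Pool.Agent.Helper548.HB.P_connected
import Pool.Agent.Helper548.HB.P_smul_adj
import Pool.Agent.Helper548.HB.P_TG_connected
import Pool.Agent.Helper548.HB.P_TG_smul
import Pool.Agent.Helper548.HB.P_gens_top
import Pool.Agent.Helper548.HB.P_not_hyp_all
import Pool.Agent.Helper548.HB.P_x_HHG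
import Pool.Agent.Helper548.HB.P_f_homeo
import Pool.Agent.Helper548.HB.P_inv_homeo
import Pool.Agent.Helper548.HB.P_inv_zero
import Pool.Agent.Helper548.HB.P_inv_one

/-!
# The hierarchically hyperbolic boundary of a group depends on the structure
-/

namespace Pool.Agent.Results.MP_40958c_al.BoundaryNotUniqueBoth

open Pool.Agent.Helper548.HB

theorem aux {G : Type} [Group G] {S : Finset G} (𝔊₁ 𝔊₂ : HHG G S) (A B : Hier G)
    (h1 : 𝔊₁.H = A) (h2 : 𝔊₂.H = B)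
    (hne : ¬ Nonempty (@Homeomorph (BPt A) (BPt B) (bTop A 1) (bTop B 1)))
    (hA : bTopLit A 1 = bTop A 1) (hB : bTopLit B 1 = bTop B 1) :
    IsEmpty (𝔊₁.boundary ≃ₜ 𝔊₂.boundary) ∧ IsEmpty (𝔊₁.boundaryLit ≃ₜ 𝔊₂.boundaryLit) := by
  subst h1 h2
  refine ⟨⟨fun e => hne ⟨e⟩⟩, ⟨fun e => ?_⟩⟩
  have e' : @Homeomorph (BPt 𝔊₁.H) (BPt 𝔊₂.H) (bTopLit 𝔊₁.H 1) (bTopLit 𝔊₂.H 1) := e
  rw [hA, hB] at e'
  exact hne ⟨e'⟩

/-- There is a group `G`, generated by a finite set `S` and not hyperbolic (the Cayley graph is not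
hyperbolic for any finite generating set), with two hierarchically hyperbolic group structures whose
boundaries are not homeomorphic, for both forms of the definition of the topology. -/
theorem result : ∃ (G : Type) (_ : Group G) (S : Finset G),
    Subgroup.closure (S : Set G) = ⊤ ∧
    (∀ S' : Finset G, Subgroup.closure (S' : Set G) = ⊤ → ¬ HypCayley S') ∧
    ∃ 𝔊₁ 𝔊₂ : HHG G S, IsEmpty (𝔊₁.boundary ≃ₜ 𝔊₂.boundary) ∧
      IsEmpty (𝔊₁.boundaryLit ≃ₜ 𝔊₂.boundaryLit) := by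
  obtain ⟨D⟩ := Pool.Agent.Helper548.HBA.exists_gdata
  obtain ⟨RG⟩ := exists_realz D.Γ (connected D) D.G (smul_adj D)
  obtain ⟨RT⟩ := exists_realz TG TG_connected H TG_smul
  obtain ⟨𝔊₁, h1⟩ := x_HHG D RG RT 0
  obtain ⟨𝔊₂, h2⟩ := x_HHG D RG RT 1
  refine ⟨D.G, D.grp, D.gens, gens_top D, not_hyp_all D, 𝔊₁, 𝔊₂, aux 𝔊₁ 𝔊₂ _ _ h1 h2 ?_
    (bTopLit_hier D RG RT 0 1) (bTopLit_hier D RG RT 1 1)⟩
  rintro ⟨e⟩
  obtain ⟨f0⟩ := f_homeo 0 D RG RT
  obtain ⟨f1⟩ := f_homeo 1 D RG RT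
  have g1 : @Inv (BPt (hier D RG RT 0)) (bTop (hier D RG RT 0) 1) :=
    @inv_homeo _ _ (mTop 0 D RG RT) (bTop (hier D RG RT 0) 1) f0 (inv_zero D RG RT)
  have g2 : @Inv (BPt (hier D RG RT 1)) (bTop (hier D RG RT 1) 1) :=
    @inv_homeo _ _ (bTop (hier D RG RT 0) 1) (bTop (hier D RG RT 1) 1) e g1
  have g3 : @Inv (MPt D RG RT) (mTop 1 D RG RT) :=
    @inv_homeo _ _ (bTop (hier D RG RT 1) 1) (mTop 1 D RG RT)
      (@Homeomorph.symm _ _ (mTop 1 D RG RT) (bTop (hier D RG RT 1) 1) f1) g2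
  exact inv_one D RG RT g3

end Pool.Agent.Results.MP_40958c_al.BoundaryNotUniqueBoth
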